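import Pool.Agent.Q319.MC.Main

set_option autoImplicit false

/-! Substructure-closed classes with Specker functions that are not MC-finite, over every finite
relational vocabulary with a symbol of arity at least two. -/

namespace Pool.Agent.Results.MP_904b92_lc.EveryVocabulary

open Pool.Agent.Q319.MC

/-- For every finite relational vocabulary `τ` with at least one symbol of arity at least `2` there is a
substructure-closed class of finite `τ`-structures whose Specker function is not MC-finite; it is
not ultimately periodic modulo any positive even number. -/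
theorem result (τ : Voc) (h : ∃ R, 2 ≤ τ.ar R) :
    ∃ C : HerClass τ, ¬ MCFinite C.Sp ∧ ∀ m, 0 < m → Even m → ¬ UP m C.Sp := by
  obtain ⟨R, hR⟩ := h
  obtain ⟨C, hC⟩ := exists_class R hR
  refine ⟨C, fun h => hC (up_of_mc h 2 (by norm_num)), ?_⟩
  rintro m - hm ⟨N, p, hp, h⟩
  exact hC ⟨N, p, hp, fun n hn => (h n hn).of_dvd hm.two_dvd⟩

end Pool.Agent.Results.MP_904b92_lc.EveryVocabulary
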